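import Pool.Agent.Helper82.ZS.Fr3
import Pool.Agent.Helper82.ZS.Basic

/-!
# The centralizer of the elements of order three
-/

set_option autoImplicit false

namespace Pool.Agent.Helper98.ZS

open Pool.Agent.Helper82.EB Pool.Agent.Helper82.ZS

/-- (IDX) -/
theorem s_IDX : S_IDX := by
  intro G _ _ hAC hU F a b c i x hF hcard ha hb hc hgen hq hi hx
  classical
  -- the elements which commute with a, b, c
  have hcl : ∀ y : G, y * a = a * y → y * b = b * y → y * c = c * y →
      ∀ u ∈ Subgroup.closure ({a, b, c} : Set G), y * u = u * y := by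
    intro y h1 h2 h3 u hu
    have hle : Subgroup.closure ({a, b, c} : Set G) ≤ Subgroup.centralizer {y} := by
      rw [Subgroup.closure_le]
      rintro v (rfl | rfl | rfl)
      · exact Subgroup.mem_centralizer_iff.2 fun t ht => by
          rw [Set.mem_singleton_iff.1 ht]; exact h1
      · exact Subgroup.mem_centralizer_iff.2 fun t ht => by
          rw [Set.mem_singleton_iff.1 ht]; exact h2
      · exact Subgroup.mem_centralizer_iff.2 fun t ht => by
          rw [Set.mem_singleton_iff.1 ht]; exact h3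
    exact Subgroup.mem_centralizer_iff.1 (hle hu) y rfl
  let T : Set G := {y | O3 y}
  have hD : ∀ y : G, y ∈ Subgroup.centralizer T ↔
      y * a = a * y ∧ y * b = b * y ∧ y * c = c * y := by
    intro y
    rw [Subgroup.mem_centralizer_iff]
    constructor
    · intro h
      exact ⟨(h a ha).symm, (h b hb).symm, (h c hc).symm⟩
    · rintro ⟨h1, h2, h3⟩ t ht
      exact (hcl y h1 h2 h3 t (hgen t ht)).symm
  refine ⟨Subgroup.centralizer T, ?_, ?_, ?_⟩
  · refine ⟨fun y hy g => ?_⟩
    rw [Subgroup.mem_centralizer_iff] at hy ⊢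
    intro t ht
    have h1 := hy (g⁻¹ * t * g) (O3.conj' ht g)
    calc t * (g * y * g⁻¹) = g * ((g⁻¹ * t * g) * y) * g⁻¹ := by group
      _ = g * (y * (g⁻¹ * t * g)) * g⁻¹ := by rw [h1]
      _ = g * y * g⁻¹ * t := by group
  · refine ⟨fun p hp P => ?_⟩
    by_contra hnc
    have : Fact p.Prime := ⟨hp⟩
    obtain ⟨j, _, y, _, hjy⟩ := quat_of_noncyclic (hAC.subgroup (Subgroup.centralizer T)) p
      (P : Subgroup (Subgroup.centralizer T)) P.2 hnc
    obtain ⟨ja, jb, jc⟩ := (hD j).mp j.2
    have hji : (j : G) * i = i * j := hcl j ja jb jc i hi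
    have hjx : (j : G) * x = x * j := hcl j ja jb jc x hx
    have hj2 : (j : G) ^ 2 ≠ 1 := fun h => hjy.1 (Subtype.ext h)
    have hj4 : (j : G) ^ 4 = 1 := congrArg Subtype.val hjy.2.1
    obtain ⟨hi2, hi4, hx2, hxi⟩ := hq
    have hjz : (j : G) ^ 2 = i ^ 2 := by
      refine hU _ _ ?_ hj2 ?_ hi2
      · rw [← pow_mul]; exact hj4
      · rw [← pow_mul]; exact hi4
    have h1 : ((j : G) * i) ^ 2 = 1 := by
      have hc : Commute (j : G) i := hji
      rw [hc.mul_pow, hjz, ← pow_add]
      exact hi4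
    have hz2 : (i ^ 2) ^ 2 = 1 := by rw [← pow_mul]; exact hi4
    have hxz : x * i ^ 2 = i ^ 2 * x := hU.central hz2 hi2 x
    have hxj : x * (j : G) = (j : G) * x := hjx.symm
    refine Quat.ne_comm ⟨hi2, hi4, hx2, hxi⟩ ?_
    rcases eq_of_mul_sq hU hz2 hi2 (pow_two i).symm h1 with h2 | h2
    · rw [h2] at hxj
      have h3 : i ^ 2 * (x * i) = i ^ 2 * (i * x) := by
        calc i ^ 2 * (x * i) = (i ^ 2 * x) * i := (mul_assoc _ _ _).symm
          _ = x * (i ^ 2 * i) := by rw [← hxz, mul_assoc]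
          _ = i ^ 2 * i * x := hxj
          _ = i ^ 2 * (i * x) := mul_assoc _ _ _
      exact (mul_left_cancel h3).symm
    · rw [← h2]; exact hjx
  · have : Fintype G := Fintype.ofFinite G
    have : Fintype (G ⧸ Subgroup.centralizer T) := Fintype.ofFinite _
    let f : G ⧸ Subgroup.centralizer T → G × G × G := fun q =>
      (q.out * a * q.out⁻¹, q.out * b * q.out⁻¹, q.out * c * q.out⁻¹)
    have hf : Function.Injective f := by
      intro p q hpq
      have h1 : p.out * a * p.out⁻¹ = q.out * a * q.out⁻¹ := congrArg Prod.fst hpq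
      have h2 : p.out * b * p.out⁻¹ = q.out * b * q.out⁻¹ :=
        congrArg (fun w => w.2.1) hpq
      have h3 : p.out * c * p.out⁻¹ = q.out * c * q.out⁻¹ :=
        congrArg (fun w => w.2.2) hpq
      rw [← p.out_eq', ← q.out_eq', QuotientGroup.eq, hD]
      refine ⟨?_, ?_, ?_⟩
      · calc (p.out⁻¹ * q.out) * a = p.out⁻¹ * (q.out * a * q.out⁻¹) * q.out := by group
          _ = p.out⁻¹ * (p.out * a * p.out⁻¹) * q.out := by rw [h1]
          _ = a * (p.out⁻¹ * q.out) := by group
      · calc (p.out⁻¹ * q.out) * b = p.out⁻¹ * (q.out * b * q.out⁻¹) * q.out := by group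
          _ = p.out⁻¹ * (p.out * b * p.out⁻¹) * q.out := by rw [h2]
          _ = b * (p.out⁻¹ * q.out) := by group
      · calc (p.out⁻¹ * q.out) * c = p.out⁻¹ * (q.out * c * q.out⁻¹) * q.out := by group
          _ = p.out⁻¹ * (p.out * c * p.out⁻¹) * q.out := by rw [h3]
          _ = c * (p.out⁻¹ * q.out) := by group
    have h1 : (Finset.univ.image f) ⊆ F ×ˢ (F ×ˢ F) := by
      intro y hy
      obtain ⟨q, _, rfl⟩ := Finset.mem_image.mp hy
      rw [Finset.mem_product, Finset.mem_product]
      exact ⟨hF _ (ha.conj q.out), hF _ (hb.conj q.out), hF _ (hc.conj q.out)⟩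
    have h2 := Finset.card_le_card h1
    rw [Finset.card_image_of_injective _ hf, Finset.card_univ, Finset.card_product,
      Finset.card_product] at h2
    rw [Subgroup.index_eq_card, Nat.card_eq_fintype_card]
    calc _ ≤ _ := h2
      _ ≤ 20 * (20 * 20) := Nat.mul_le_mul hcard (Nat.mul_le_mul hcard hcard)
      _ = 8000 := by norm_num

end Pool.Agent.Helper98.ZS
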